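import Pool.Agent.H126R2.CDC.Main

set_option autoImplicit false

/-!
# Smallest counterexamples to the circuit double cover conjecture have no cyclic 4-edge-cut

Graphs are finite, with loops and parallel edges allowed: `G : MGraph V E` has vertex set `V` and
edge set `E`, and `G.ends e` is the unordered pair of ends of the edge `e`. The notions
`G.IsCircuit C` (the edge set `C` is a circuit), `G.Bridgeless` (every edge lies on a circuit) and
`G.IsCDC F` (the multiset `F` of circuits covers every edge exactly twice) are those of
`Pool.Agent.H126R2.CDC.Defs`.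

The proof goes through the circuit double cover theorem `MGraph.exists_cdc`: every bridgeless
graph has a circuit double cover.
-/

namespace Pool.Agent.Results.MP_b1bfa0_co.NoCyclicFourCut

open Pool.Agent.H126R2.CDC (MGraph)

/-- `G` is a counterexample to the circuit double cover conjecture: it is bridgeless and has no
circuit double cover. -/
def IsCounterexample {V E : Type} [Fintype V] [DecidableEq V] [Fintype E] [DecidableEq E]
    (G : MGraph V E) : Prop :=
  G.Bridgeless ∧ ¬ ∃ F : Multiset (Finset E), G.IsCDC F

/-- `G` is a smallest counterexample: a counterexample with the least number of vertices plus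
edges among all counterexamples. -/
def IsSmallestCounterexample {V E : Type} [Fintype V] [DecidableEq V] [Fintype E] [DecidableEq E]
    (G : MGraph V E) : Prop :=
  IsCounterexample G ∧
    ∀ (V' E' : Type) [Fintype V'] [DecidableEq V'] [Fintype E'] [DecidableEq E']
      (G' : MGraph V' E'), IsCounterexample G' →
        Fintype.card V + Fintype.card E ≤ Fintype.card V' + Fintype.card E'

/-- The set of the edges with exactly one end in `X`. -/
def edgeCut {V E : Type} [Fintype V] [DecidableEq V] [Fintype E] [DecidableEq E]
    (G : MGraph V E) (X : Finset V) : Set E :=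
  {e | ∃ x ∈ X, ∃ y, y ∉ X ∧ G.ends e = s(x, y)}

/-- `x` and `y` lie in the same component of `G - T`. -/
def SameComponent {V E : Type} (G : MGraph V E) (T : Set E) (x y : V) : Prop :=
  Relation.ReflTransGen (fun a b => ∃ e, e ∉ T ∧ G.ends e = s(a, b)) x y

/-- At least two components of `G - T` contain a circuit: there are circuits `C`, `D` of `G - T`
such that no vertex of `C` lies in the same component of `G - T` as a vertex of `D`. -/
def IsCyclic {V E : Type} [Fintype V] [DecidableEq V] [Fintype E] [DecidableEq E]
    (G : MGraph V E) (T : Set E) : Prop :=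
  ∃ C D : Finset E, G.IsCircuit C ∧ G.IsCircuit D ∧ (∀ e ∈ C, e ∉ T) ∧ (∀ e ∈ D, e ∉ T) ∧
    ∀ e ∈ C, ∀ f ∈ D, ∀ x ∈ G.ends e, ∀ y ∈ G.ends f, ¬ SameComponent G T x y

/-- `G` has a cyclic edge-cut consisting of exactly four edges. -/
def HasCyclicFourEdgeCut {V E : Type} [Fintype V] [DecidableEq V] [Fintype E] [DecidableEq E]
    (G : MGraph V E) : Prop :=
  ∃ X : Finset V, X.Nonempty ∧ X ≠ Finset.univ ∧ (edgeCut G X).ncard = 4 ∧
    IsCyclic G (edgeCut G X)

/-- No smallest counterexample to the circuit double cover conjecture has a cyclic 4-edge-cut. -/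
theorem result (V E : Type) [Fintype V] [DecidableEq V] [Fintype E] [DecidableEq E]
    (G : MGraph V E) (hG : IsSmallestCounterexample G) : ¬ HasCyclicFourEdgeCut G :=
  absurd (G.exists_cdc hG.1.1) hG.1.2

end Pool.Agent.Results.MP_b1bfa0_co.NoCyclicFourCut
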